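import Mathlib
import Pool.Agent.Lib.MP_536123_gt.Proj

/-!
Two convex bodies in four-dimensional Euclidean space all of whose hyperplane projections have
the same second intrinsic volume, but which have projections of different area onto some plane.
-/

set_option autoImplicit false

open MeasureTheory Set Metric Module Filter Topology
open scoped RealInnerProductSpace ENNReal

namespace Pool.Agent.Results.MP_536123_gt.Counterexample

open Pool.Agent.Lib.MP_536123_gt

/-- The volume of the unit ball of `m`-dimensional Euclidean space. -/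
noncomputable def kappa (m : ℕ) : ℝ := (volume (ball (0 : EuclideanSpace ℝ (Fin m)) 1)).toReal

/-- `V 0, ..., V d` are the intrinsic volumes of the subset `K` of the `d`-dimensional Euclidean
space `E`: the Steiner formula `vol (K + r B) = ∑ j, kappa (d - j) * V j * r ^ (d - j)` holds for
all `r ≥ 0`. Here `K + r B` is the closed `r`-neighbourhood of `K`, and volume is the Lebesgue
measure of the Euclidean space `E`. -/
def IsIntrinsicVolumes {E : Type*} [NormedAddCommGroup E] [InnerProductSpace ℝ E]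
    [FiniteDimensional ℝ E] [MeasurableSpace E] [BorelSpace E] (K : Set E) (V : ℕ → ℝ) : Prop :=
  ∀ r : ℝ, 0 ≤ r → (volume (cthickening r K)).toReal =
    ∑ j ∈ Finset.range (finrank ℝ E + 1),
      kappa (finrank ℝ E - j) * V j * r ^ (finrank ℝ E - j)

/-- The orthogonal projection of `K` onto the linear subspace `S`, as a subset of `S`. -/
def projectTo {E : Type*} [NormedAddCommGroup E] [InnerProductSpace ℝ E]
    [FiniteDimensional ℝ E] (K : Set E) (S : Submodule ℝ E) : Set S :=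
  S.orthogonalProjectionOnto '' K

/-- The projections of `K₁` and `K₂` onto each hyperplane through the origin have the same `i`-th
intrinsic volume. -/
def SameOnHyperplanes {E : Type*} [NormedAddCommGroup E] [InnerProductSpace ℝ E]
    [FiniteDimensional ℝ E] [MeasurableSpace E] [BorelSpace E] (i : ℕ) (K₁ K₂ : Set E) : Prop :=
  ∀ u : E, ‖u‖ = 1 → ∃ V W : ℕ → ℝ,
    IsIntrinsicVolumes (projectTo K₁ (Submodule.span ℝ {u})ᗮ) V ∧
    IsIntrinsicVolumes (projectTo K₂ (Submodule.span ℝ {u})ᗮ) W ∧ V i = W i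

/-- The projections of `K₁` and `K₂` onto some `k`-dimensional linear subspace have different
`i`-th intrinsic volumes. -/
def DifferOnSubspace {E : Type*} [NormedAddCommGroup E] [InnerProductSpace ℝ E]
    [FiniteDimensional ℝ E] [MeasurableSpace E] [BorelSpace E] (i k : ℕ) (K₁ K₂ : Set E) : Prop :=
  ∃ S : Submodule ℝ E, finrank ℝ S = k ∧ ∃ V W : ℕ → ℝ,
    IsIntrinsicVolumes (projectTo K₁ S) V ∧ IsIntrinsicVolumes (projectTo K₂ S) W ∧ V i ≠ W i

/-- Nonempty compact convex sets. -/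
def IsConvexBody {E : Type*} [NormedAddCommGroup E] [InnerProductSpace ℝ E] (K : Set E) : Prop :=
  K.Nonempty ∧ IsCompact K ∧ Convex ℝ K

/-- `K₁`, `K₂` are nonempty compact convex sets whose projections onto each hyperplane have the
same `i`-th intrinsic volume, but whose projections onto some `k`-dimensional subspace have
different `i`-th intrinsic volumes. -/
def IsCounterexample {E : Type*} [NormedAddCommGroup E] [InnerProductSpace ℝ E]
    [FiniteDimensional ℝ E] [MeasurableSpace E] [BorelSpace E] (i k : ℕ) (K₁ K₂ : Set E) : Prop :=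
  IsConvexBody K₁ ∧ IsConvexBody K₂ ∧ SameOnHyperplanes i K₁ K₂ ∧ DifferOnSubspace i k K₁ K₂

lemma kappa_pos (m : ℕ) : 0 < kappa m :=
  ENNReal.toReal_pos (measure_ball_pos volume _ one_pos).ne' measure_ball_lt_top.ne

/-- The intrinsic volumes are determined by the set. -/
lemma IsIntrinsicVolumes.unique {E : Type*} [NormedAddCommGroup E] [InnerProductSpace ℝ E]
    [FiniteDimensional ℝ E] [MeasurableSpace E] [BorelSpace E] {K : Set E} {V W : ℕ → ℝ}
    (hV : IsIntrinsicVolumes K V) (hW : IsIntrinsicVolumes K W) {i : ℕ}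
    (hi : i ≤ finrank ℝ E) : V i = W i := by
  classical
  set d := finrank ℝ E with hd
  let p : Polynomial ℝ := ∑ j ∈ Finset.range (d + 1),
    Polynomial.monomial (d - j) (kappa (d - j) * V j)
  let q : Polynomial ℝ := ∑ j ∈ Finset.range (d + 1),
    Polynomial.monomial (d - j) (kappa (d - j) * W j)
  have hpq : p = q := by
    apply Polynomial.eq_of_infinite_eval_eq
    apply (Set.Ici_infinite (0 : ℝ)).mono
    intro r hr
    have h1 := hV r hr
    have h2 := hW r hr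
    rw [h1] at h2
    simp only [mem_ofPred_eq, p, q, Polynomial.eval_finsetSum, Polynomial.eval_monomial]
    exact h2
  have hcoef : ∀ U : ℕ → ℝ, (∑ j ∈ Finset.range (d + 1),
      Polynomial.monomial (d - j) (kappa (d - j) * U j) : Polynomial ℝ).coeff (d - i) =
      kappa (d - i) * U i := by
    intro U
    rw [Polynomial.finsetSum_coeff, Finset.sum_eq_single i]
    · rw [Polynomial.coeff_monomial, if_pos rfl]
    · intro j hj hji
      rw [Polynomial.coeff_monomial, if_neg]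
      rw [Finset.mem_range] at hj
      omega
    · intro h
      exact absurd (Finset.mem_range.2 (by omega)) h
  have h := congrArg (fun f => Polynomial.coeff f (d - i)) hpq
  simp only [p, q, hcoef] at h
  exact mul_left_cancel₀ (kappa_pos _).ne' h

lemma IsIntrinsicVolumes.image {E F : Type*} [NormedAddCommGroup E] [InnerProductSpace ℝ E]
    [FiniteDimensional ℝ E] [MeasurableSpace E] [BorelSpace E]
    [NormedAddCommGroup F] [InnerProductSpace ℝ F] [FiniteDimensional ℝ F] [MeasurableSpace F]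
    [BorelSpace F] (L : E ≃ₗᵢ[ℝ] F) {K : Set E} {V : ℕ → ℝ} (h : IsIntrinsicVolumes K V) :
    IsIntrinsicVolumes (L '' K) V := by
  intro r hr
  rw [cthickening_image, volume_image, h r hr, L.toLinearEquiv.finrank_eq]

/-- coefficients in dimension three -/
lemma coeff3 (P : PData (EuclideanSpace ℝ (Fin 3)))
    (hd : ∀ y : EuclideanSpace ℝ (Fin 3), y ≠ 0 → DifferentiableAt ℝ P.X y)
    (hc : ContinuousOn (fderiv ℝ P.X) {0}ᶜ) :
    ∃ V : ℕ → ℝ, IsIntrinsicVolumes (body P.h 1) V ∧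
      V 2 = (3 * kappa 3 + (T3 P + S3 P)) / kappa 1 := by
  refine ⟨fun j => if j = 0 then 1 else if j = 1 then (3 * kappa 3 + T3 P / 2) / kappa 2 else
    if j = 2 then (3 * kappa 3 + (T3 P + S3 P)) / kappa 1 else
      (volume (body P.h 1)).toReal / kappa 0, ?_, ?_⟩
  · intro r hr
    rw [steiner3 P hd hc r hr]
    have hf : finrank ℝ (EuclideanSpace ℝ (Fin 3)) = 3 := by simp
    rw [hf]
    have k0 := (kappa_pos 0).ne'
    have k1 := (kappa_pos 1).ne'
    have k2 := (kappa_pos 2).ne'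
    have k3 : (volume (ball (0 : EuclideanSpace ℝ (Fin 3)) 1)).toReal = kappa 3 := rfl
    rw [k3]
    simp only [Finset.sum_range_succ, Finset.sum_range_zero]
    norm_num
    field_simp
    ring
  · norm_num

/-- coefficients in dimension two -/
lemma coeff2 (P : PData (EuclideanSpace ℝ (Fin 2)))
    (hd : ∀ y : EuclideanSpace ℝ (Fin 2), y ≠ 0 → DifferentiableAt ℝ P.X y)
    (hc : ContinuousOn (fderiv ℝ P.X) {0}ᶜ) :
    ∃ V : ℕ → ℝ, IsIntrinsicVolumes (body P.h 1) V ∧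
      V 2 = (volume (body P.h 1)).toReal / kappa 0 := by
  refine ⟨fun j => if j = 0 then 1 else if j = 1 then (2 * kappa 2 + T2 P) / kappa 1 else
      (volume (body P.h 1)).toReal / kappa 0, ?_, ?_⟩
  · intro r hr
    rw [steiner2 P hd hc r hr]
    have hf : finrank ℝ (EuclideanSpace ℝ (Fin 2)) = 2 := by simp
    rw [hf]
    have k0 := (kappa_pos 0).ne'
    have k1 := (kappa_pos 1).ne'
    have k3 : (volume (ball (0 : EuclideanSpace ℝ (Fin 2)) 1)).toReal = kappa 2 := rfl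
    rw [k3]
    simp only [Finset.sum_range_succ, Finset.sum_range_zero]
    norm_num
    field_simp
    ring
  · norm_num

/-- first complex coordinate -/
noncomputable def Z₁ : EuclideanSpace ℝ (Fin 4) →L[ℝ] ℂ :=
  Complex.ofRealCLM.comp (EuclideanSpace.proj (0 : Fin 4)) +
    Complex.I • (Complex.ofRealCLM.comp (EuclideanSpace.proj (1 : Fin 4)))

/-- second complex coordinate -/
noncomputable def Z₂ : EuclideanSpace ℝ (Fin 4) →L[ℝ] ℂ :=
  Complex.ofRealCLM.comp (EuclideanSpace.proj (2 : Fin 4)) +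
    Complex.I • (Complex.ofRealCLM.comp (EuclideanSpace.proj (3 : Fin 4)))

lemma Z₁_apply (v : EuclideanSpace ℝ (Fin 4)) : Z₁ v = (v 0 : ℂ) + Complex.I * (v 1 : ℂ) := by
  simp [Z₁]

lemma Z₂_apply (v : EuclideanSpace ℝ (Fin 4)) : Z₂ v = (v 2 : ℂ) + Complex.I * (v 3 : ℂ) := by
  simp [Z₂]

lemma norm_sq_aux (x y : ℝ) : ‖(x : ℂ) + Complex.I * (y : ℂ)‖ ^ 2 = x ^ 2 + y ^ 2 := by
  rw [← Complex.normSq_eq_norm_sq, Complex.normSq_apply]
  simp
  ring

lemma hz4 (κ : ℂ) (hκ : ‖κ‖ = 1) (x : EuclideanSpace ℝ (Fin 4)) :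
    ‖Z₁ x‖ ^ 2 + ‖(κ • Z₂) x‖ ^ 2 ≤ ‖x‖ ^ 2 := by
  have h := EuclideanSpace.real_norm_sq_eq x
  rw [Fin.sum_univ_four] at h
  have e : (κ • Z₂) x = κ * Z₂ x := rfl
  rw [e, norm_mul, hκ, one_mul, Z₁_apply, Z₂_apply, norm_sq_aux, norm_sq_aux, h]
  linarith

/-- linear parametrisation of the hyperplane orthogonal to `u` -/
noncomputable def parL (u : EuclideanSpace ℝ (Fin 4)) :
    EuclideanSpace ℝ (Fin 3) →ₗ[ℝ] EuclideanSpace ℝ (Fin 4) where
  toFun v := !₂[-u 1 * v 0 - u 2 * v 1 - u 3 * v 2, u 0 * v 0 + u 3 * v 1 - u 2 * v 2,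
    -u 3 * v 0 + u 0 * v 1 + u 1 * v 2, u 2 * v 0 - u 1 * v 1 + u 0 * v 2]
  map_add' v w := by
    ext i
    fin_cases i <;> simp <;> ring
  map_smul' t v := by
    ext i
    fin_cases i <;> simp <;> ring

lemma parL_mem (u : EuclideanSpace ℝ (Fin 4)) (v : EuclideanSpace ℝ (Fin 3)) :
    parL u v ∈ (Submodule.span ℝ {u})ᗮ := by
  rw [Submodule.mem_orthogonal_singleton_iff_inner_right]
  rw [PiLp.inner_apply, Fin.sum_univ_four]
  simp [parL]
  ring

lemma parL_norm {u : EuclideanSpace ℝ (Fin 4)} (hu : ‖u‖ = 1) (v : EuclideanSpace ℝ (Fin 3)) :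
    ‖parL u v‖ = ‖v‖ := by
  have h1 := EuclideanSpace.real_norm_sq_eq (parL u v)
  have h2 := EuclideanSpace.real_norm_sq_eq v
  have h3 := EuclideanSpace.real_norm_sq_eq u
  rw [Fin.sum_univ_three] at h2
  rw [hu] at h3
  rw [Fin.sum_univ_four] at h1 h3
  have h4 : ‖parL u v‖ ^ 2 = ‖v‖ ^ 2 := by
    rw [h1, h2]
    simp [parL]
    linear_combination (-(v 0 ^ 2 + v 1 ^ 2 + v 2 ^ 2)) * h3
  exact (sq_eq_sq₀ (norm_nonneg _) (norm_nonneg _)).1 h4

/-- isometric parametrisation of the hyperplane orthogonal to the unit vector `u` -/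
lemma exists_param {u : EuclideanSpace ℝ (Fin 4)} (hu : ‖u‖ = 1) :
    ∃ L : EuclideanSpace ℝ (Fin 3) ≃ₗᵢ[ℝ] ((Submodule.span ℝ {u})ᗮ : Submodule ℝ _),
      ∀ v, (L v : EuclideanSpace ℝ (Fin 4)) = parL u v := by
  have hu0 : u ≠ 0 := by
    rintro rfl
    simp at hu
  have : Fact (finrank ℝ (EuclideanSpace ℝ (Fin 4)) = 3 + 1) := ⟨by simp⟩
  have hfr : finrank ℝ (EuclideanSpace ℝ (Fin 3)) =
      finrank ℝ ((Submodule.span ℝ {u})ᗮ : Submodule ℝ (EuclideanSpace ℝ (Fin 4))) := by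
    rw [Submodule.finrank_orthogonal_span_singleton (n := 3) hu0]
    simp
  let J : EuclideanSpace ℝ (Fin 3) →ₗᵢ[ℝ]
      ((Submodule.span ℝ {u})ᗮ : Submodule ℝ (EuclideanSpace ℝ (Fin 4))) :=
    ⟨(parL u).codRestrict _ (parL_mem u), fun v => parL_norm hu v⟩
  exact ⟨J.toLinearIsometryEquiv hfr, fun v => rfl⟩

/-- the second complex functional, rotated -/
noncomputable def Zk (κ : ℂ) : EuclideanSpace ℝ (Fin 4) →L[ℝ] ℂ := κ • Z₂

/-- The bodies. -/
noncomputable def Kb (κ : ℂ) : Set (EuclideanSpace ℝ (Fin 4)) := body (hf Z₁ (Zk κ)) 1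

lemma hyperplane {u : EuclideanSpace ℝ (Fin 4)} (hu : ‖u‖ = 1) (κ : ℂ) (hκ : ‖κ‖ = 1) :
    ∃ V : ℕ → ℝ, IsIntrinsicVolumes (((Submodule.span ℝ {u})ᗮ).orthogonalProjectionOnto '' Kb κ) V ∧
      ∃ hz : ∀ x, ‖lf (Complex.I * ((u 0 : ℂ) + Complex.I * (u 1 : ℂ)))
          (-((u 2 : ℂ) - Complex.I * (u 3 : ℂ))) x‖ ^ 2 +
        ‖lf (κ * (Complex.I * ((u 2 : ℂ) + Complex.I * (u 3 : ℂ))))
          (κ * ((u 0 : ℂ) - Complex.I * (u 1 : ℂ))) x‖ ^ 2 ≤ ‖x‖ ^ 2,
      V 2 = (3 * kappa 3 + (T3 (mkP _ _ hz) + S3 (mkP _ _ hz))) / kappa 1 := by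
  obtain ⟨L, hL⟩ := exists_param hu
  have e1 : ∀ v, Z₁ (L v) = lf (Complex.I * ((u 0 : ℂ) + Complex.I * (u 1 : ℂ)))
          (-((u 2 : ℂ) - Complex.I * (u 3 : ℂ))) v := by
    intro v
    rw [hL, Z₁_apply, lf_apply]
    simp [parL]
    linear_combination (-(u 1) * v 0 - u 3 * v 2 : ℂ) * Complex.I_sq
  have e2 : ∀ v, Zk κ (L v) = lf (κ * (Complex.I * ((u 2 : ℂ) + Complex.I * (u 3 : ℂ))))
          (κ * ((u 0 : ℂ) - Complex.I * (u 1 : ℂ))) v := by
    intro v
    have : Zk κ (L v) = κ * Z₂ (L v) := rfl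
    rw [this, hL, Z₂_apply, lf_apply]
    simp [parL]
    linear_combination (κ * (-(u 3) * v 0 + u 1 * v 2) : ℂ) * Complex.I_sq
  have hz : ∀ x, ‖lf (Complex.I * ((u 0 : ℂ) + Complex.I * (u 1 : ℂ)))
          (-((u 2 : ℂ) - Complex.I * (u 3 : ℂ))) x‖ ^ 2 +
        ‖lf (κ * (Complex.I * ((u 2 : ℂ) + Complex.I * (u 3 : ℂ))))
          (κ * ((u 0 : ℂ) - Complex.I * (u 1 : ℂ))) x‖ ^ 2 ≤ ‖x‖ ^ 2 := by
    intro x
    rw [← e1, ← e2]
    refine (hz4 κ hκ _).trans ?_
    have : ‖((L x : ((Submodule.span ℝ {u})ᗮ : Submodule ℝ (EuclideanSpace ℝ (Fin 4)))) :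
      EuclideanSpace ℝ (Fin 4))‖ = ‖x‖ := L.norm_map x
    rw [this]
  obtain ⟨V, hV, hV2⟩ := coeff3 (mkP _ _ hz) (mkP_diff _ _ hz) (mkP_cont _ _ hz)
  refine ⟨V, ?_, hz, hV2⟩
  have hproj := (mkP Z₁ (Zk κ) (hz4 κ hκ)).proj_body ((Submodule.span ℝ {u})ᗮ) L
  have hh : (fun v : EuclideanSpace ℝ (Fin 3) => (mkP Z₁ (Zk κ) (hz4 κ hκ)).h (L v)) =
      (mkP _ _ hz).h := by
    funext v
    show hf Z₁ (Zk κ) (L v) = hf _ _ v
    unfold hf Qf
    rw [e1, e2]
  rw [hh] at hproj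
  have : Kb κ = body (mkP Z₁ (Zk κ) (hz4 κ hκ)).h 1 := rfl
  rw [this, hproj]
  exact hV.image L

/-- linear parametrisation of a totally real plane -/
noncomputable def plL : EuclideanSpace ℝ (Fin 2) →ₗ[ℝ] EuclideanSpace ℝ (Fin 4) where
  toFun v := !₂[v 0, 0, v 1, 0]
  map_add' v w := by
    ext i
    fin_cases i <;> simp
  map_smul' t v := by
    ext i
    fin_cases i <;> simp

lemma plL_norm (v : EuclideanSpace ℝ (Fin 2)) : ‖plL v‖ = ‖v‖ := by
  have h1 := EuclideanSpace.real_norm_sq_eq (plL v)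
  have h2 := EuclideanSpace.real_norm_sq_eq v
  rw [Fin.sum_univ_two] at h2
  rw [Fin.sum_univ_four] at h1
  have h4 : ‖plL v‖ ^ 2 = ‖v‖ ^ 2 := by
    rw [h1, h2]
    simp [plL]
  exact (sq_eq_sq₀ (norm_nonneg _) (norm_nonneg _)).1 h4

/-- the plane, as an isometric embedding -/
noncomputable def plJ : EuclideanSpace ℝ (Fin 2) →ₗᵢ[ℝ] EuclideanSpace ℝ (Fin 4) :=
  ⟨plL, plL_norm⟩

lemma plane (κ : ℂ) (hκ : ‖κ‖ = 1) :
    ∃ V : ℕ → ℝ, IsIntrinsicVolumes
      ((LinearMap.range plJ.toLinearMap).orthogonalProjectionOnto '' Kb κ) V ∧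
      V 2 = (volume (body (hf (lf2 1 0) (lf2 0 κ)) 1)).toReal / kappa 0 := by
  have hz := norm_lf2_le κ hκ
  obtain ⟨V, hV, hV2⟩ := coeff2 (mkP _ _ hz) (mkP_diff _ _ hz) (mkP_cont _ _ hz)
  refine ⟨V, ?_, hV2⟩
  have hproj := (mkP Z₁ (Zk κ) (hz4 κ hκ)).proj_body (LinearMap.range plJ.toLinearMap)
    plJ.equivRange
  have hL : ∀ v, ((plJ.equivRange v : LinearMap.range plJ.toLinearMap) :
      EuclideanSpace ℝ (Fin 4)) = plL v := fun v => rfl
  have hh : (fun v : EuclideanSpace ℝ (Fin 2) =>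
      (mkP Z₁ (Zk κ) (hz4 κ hκ)).h (plJ.equivRange v : LinearMap.range plJ.toLinearMap)) =
      (mkP _ _ hz).h := by
    funext v
    show hf Z₁ (Zk κ) (plJ.equivRange v : LinearMap.range plJ.toLinearMap) = hf _ _ v
    unfold hf Qf
    have e1 : Z₁ (plJ.equivRange v : LinearMap.range plJ.toLinearMap) = lf2 1 0 v := by
      rw [hL, Z₁_apply, lf2_apply]
      simp [plL]
    have e2 : Zk κ (plJ.equivRange v : LinearMap.range plJ.toLinearMap) = lf2 0 κ v := by
      have : Zk κ (plJ.equivRange v : LinearMap.range plJ.toLinearMap) =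
        κ * Z₂ (plJ.equivRange v : LinearMap.range plJ.toLinearMap) := rfl
      rw [this, hL, Z₂_apply, lf2_apply]
      simp [plL]
    rw [e1, e2]
  rw [hh] at hproj
  have : Kb κ = body (mkP Z₁ (Zk κ) (hz4 κ hκ)).h 1 := rfl
  rw [this, hproj]
  exact hV.image plJ.equivRange

lemma Kb_props (κ : ℂ) (hκ : ‖κ‖ = 1) : (Kb κ).Nonempty ∧ IsCompact (Kb κ) ∧ Convex ℝ (Kb κ) :=
  ⟨(mkP Z₁ (Zk κ) (hz4 κ hκ)).body_nonempty, (mkP Z₁ (Zk κ) (hz4 κ hκ)).isCompact_body 1,
    PData.convex_body _ 1⟩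

/-- There are two (nonempty) compact convex sets in four-dimensional Euclidean space such that
the second intrinsic volumes of their orthogonal projections onto every hyperplane through the
origin agree, but the second intrinsic volumes of their projections onto some two-dimensional
linear subspace differ. -/
theorem result : ∃ K₁ K₂ : Set (EuclideanSpace ℝ (Fin 4)), IsCounterexample 2 2 K₁ K₂ := by
  have hI : ‖Complex.I‖ = 1 := Complex.norm_I
  have h1 : ‖(1 : ℂ)‖ = 1 := norm_one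
  refine ⟨Kb 1, Kb Complex.I, Kb_props 1 h1, Kb_props Complex.I hI, ?_, ?_⟩
  · intro u hu
    obtain ⟨V, hV, hz, hV2⟩ := hyperplane hu 1 h1
    obtain ⟨W, hW, hz', hW2⟩ := hyperplane hu Complex.I hI
    refine ⟨V, W, hV, hW, ?_⟩
    rw [hV2, hW2]
    congr 2
    simp only [one_mul] at hz ⊢
    exact TS_eq _ _ _ _ hz hz'
  · refine ⟨LinearMap.range plJ.toLinearMap, ?_, ?_⟩
    · rw [LinearMap.finrank_range_of_inj plJ.injective]
      simp
    · obtain ⟨V, hV, hV2⟩ := plane 1 h1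
      obtain ⟨W, hW, hW2⟩ := plane Complex.I hI
      refine ⟨V, W, hV, hW, ?_⟩
      rw [hV2, hW2]
      intro h
      apply planar_ne
      have := (kappa_pos 0).ne'
      field_simp at h
      exact h

end Pool.Agent.Results.MP_536123_gt.Counterexample
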